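import Mathlib
set_option autoImplicit false
open MeasureTheory Real
open scoped ENNReal

namespace Pool.Agent.H483R3.Ent

/-- The unnormalised Gaussian. -/
noncomputable def ga (x : ℝ) : ℝ := Real.exp (-(x ^ 2) / 2)

lemma ga_pos (x : ℝ) : 0 < ga x := Real.exp_pos _

lemma ga_cont : Continuous ga := by unfold ga; fun_prop

lemma ga_even (x : ℝ) : ga (-x) = ga x := by simp [ga]

lemma integrable_ga : Integrable ga := by
  have h := integrable_exp_neg_mul_sq (b := 1 / 2) (by norm_num)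
  refine h.congr (Filter.Eventually.of_forall fun x => ?_)
  simp only [ga]
  congr 1
  ring

lemma integral_ga : ∫ x, ga x = √(2 * π) := by
  have h := integral_gaussian (1 / 2)
  rw [show (√(2 * π) : ℝ) = √(π / (1 / 2)) by congr 1; ring, ← h]
  refine integral_congr_ae (Filter.Eventually.of_forall fun x => ?_)
  simp only [ga]
  congr 1
  ring

lemma integrable_ga_mul_of_bdd {g : ℝ → ℝ} (hg : Continuous g) {C : ℝ} (hC : ∀ x, |g x| ≤ C) :
    Integrable (fun x => ga x * g x) := by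
  refine (integrable_ga.const_mul C).mono' (ga_cont.mul hg).aestronglyMeasurable
    (Filter.Eventually.of_forall fun x => ?_)
  rw [Real.norm_eq_abs, abs_mul, abs_of_pos (ga_pos x)]
  nlinarith [ga_pos x, hC x]

lemma integrable_ga_cos (β α : ℝ) : Integrable (fun v : ℝ => ga v * Real.cos (β * v + α)) :=
  integrable_ga_mul_of_bdd (by fun_prop) (C := 1) (fun x => Real.abs_cos_le_one _)

lemma integral_ga_cos (β α : ℝ) :
    ∫ v : ℝ, ga v * Real.cos (β * v + α) = √(2 * π) * (Real.exp (-(β ^ 2) / 2) * Real.cos α) := by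
  have key := integral_cexp_quadratic (b := ((-(1 / 2) : ℝ) : ℂ)) (by simp) ((β : ℂ) * Complex.I)
    ((α : ℂ) * Complex.I)
  have hint : Integrable (fun x : ℝ => Complex.exp (((-(1 / 2) : ℝ) : ℂ) * (x : ℂ) ^ 2 +
      ((β : ℂ) * Complex.I) * x + ((α : ℂ) * Complex.I))) := by
    have h1 : Integrable (fun x : ℝ => ga x) := integrable_ga
    refine (integrable_norm_iff ?_).1 ?_
    · exact (Continuous.aestronglyMeasurable (by fun_prop))
    · refine h1.congr (Filter.Eventually.of_forall fun x => ?_)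
      simp only [ga, Complex.norm_exp]
      congr 1
      simp [Complex.add_re, Complex.mul_re, pow_two]
      ring
  have hcomm := Complex.reCLM.integral_comp_comm hint
  rw [key] at hcomm
  have hL : ∀ x : ℝ, Complex.reCLM (Complex.exp (((-(1 / 2) : ℝ) : ℂ) * (x : ℂ) ^ 2 +
      ((β : ℂ) * Complex.I) * x + ((α : ℂ) * Complex.I))) = ga x * Real.cos (β * x + α) := by
    intro x
    have e : (((-(1 / 2) : ℝ) : ℂ) * (x : ℂ) ^ 2 + ((β : ℂ) * Complex.I) * x +
        ((α : ℂ) * Complex.I)) = ((-(x ^ 2) / 2 : ℝ) : ℂ) + ((β * x + α : ℝ) : ℂ) * Complex.I := by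
      push_cast
      ring
    rw [e, Complex.reCLM_apply, Complex.exp_add, ← Complex.ofReal_exp, Complex.re_ofReal_mul,
      Complex.exp_ofReal_mul_I_re]
    rfl
  simp only [hL] at hcomm
  rw [hcomm]
  have e1 : ((π : ℂ) / -((-(1 / 2) : ℝ) : ℂ)) ^ (1 / 2 : ℂ) = ((√(2 * π) : ℝ) : ℂ) := by
    rw [show ((π : ℂ) / -((-(1 / 2) : ℝ) : ℂ)) = ((2 * π : ℝ) : ℂ) by push_cast; ring,
      show (1 / 2 : ℂ) = ((1 / 2 : ℝ) : ℂ) by push_cast; rfl,
      ← Complex.ofReal_cpow (by positivity), Real.sqrt_eq_rpow]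
  have e2 : ((α : ℂ) * Complex.I - ((β : ℂ) * Complex.I) ^ 2 / (4 * ((-(1 / 2) : ℝ) : ℂ))) =
      ((-(β ^ 2) / 2 : ℝ) : ℂ) + (α : ℂ) * Complex.I := by
    rw [mul_pow, Complex.I_sq]
    push_cast
    ring
  rw [e1, e2, Complex.reCLM_apply, Complex.re_ofReal_mul, Complex.exp_add, ← Complex.ofReal_exp,
    Complex.re_ofReal_mul, Complex.exp_ofReal_mul_I_re]

end Pool.Agent.H483R3.Ent
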