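import Pool.Agent.H483R3.Ent.Entr
set_option autoImplicit false
open MeasureTheory Real
open scoped ENNReal

namespace Pool.Agent.H483R3.Ent

lemma q_upper {r : ℝ} (hr : 0 < r) : r * Real.log r - r + 1 ≤ (r - 1) ^ 2 := by
  have h := Real.log_le_sub_one_of_pos hr
  nlinarith [mul_le_mul_of_nonneg_left h hr.le]

lemma q_lower {r : ℝ} (hr : 0 < r) (hr2 : r ≤ 2) :
    (1 / 6) * (r - 1) ^ 2 ≤ r * Real.log r - r + 1 := by
  set s := √r with hs
  have hs0 : 0 < s := Real.sqrt_pos.2 hr
  have hss : s ^ 2 = r := Real.sq_sqrt hr.le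
  have hlog : Real.log r = 2 * Real.log s := by
    rw [← hss, Real.log_pow]
    push_cast
    ring
  have h1 := Real.one_sub_inv_le_log_of_pos hs0
  have h2 : s - 1 ≤ s * Real.log s := by
    have := mul_le_mul_of_nonneg_left h1 hs0.le
    have h3 : s * (1 - s⁻¹) = s - 1 := by field_simp
    linarith
  have h4 : (s - 1) ^ 2 ≤ r * Real.log r - r + 1 := by
    rw [hlog, ← hss]
    nlinarith [mul_le_mul_of_nonneg_left h2 hs0.le]
  have hs15 : s ≤ 3 / 2 := by
    by_contra hc
    push Not at hc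
    nlinarith
  have h5 : (s + 1) ^ 2 ≤ 6 + 1 / 2 := by nlinarith
  have h5 : (s + 1) ^ 2 ≤ 6 := by nlinarith
  have h6 : (r - 1) ^ 2 = (s - 1) ^ 2 * (s + 1) ^ 2 := by
    rw [← hss]
    ring
  nlinarith [mul_le_mul_of_nonneg_left h5 (sq_nonneg (s - 1))]

lemma Q_upper {w e a b d : ℝ} (he : 0 < e) (he4 : e ≤ 1 / 4)
    (hd : e * ga (w * b) + e * ga (w * a) + e ^ 2 / 2 * (ga (w * (b - a)) + ga (w * (a + b))) ≤ d) :
    Q w e a b ≤ √(2 * π) * d ^ 2 := by
  unfold Q
  have e1 : √(2 * π) * d ^ 2 = ∫ u, ga u * d ^ 2 := by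
    rw [integral_mul_const, integral_ga]
  rw [e1]
  have hq : Continuous (fun u => RR w e a b u * Real.log (RR w e a b u) - RR w e a b u + 1) :=
    (((RR_cont w e a b).mul (logRR_cont a b he he4)).sub (RR_cont w e a b)).add continuous_const
  have hpt : ∀ u, RR w e a b u * Real.log (RR w e a b u) - RR w e a b u + 1 ≤ d ^ 2 := by
    intro u
    have h0 : 0 < RR w e a b u := by
      have := (RR_bounds (w := w) (a := a) (b := b) he he4 u).1
      linarith
    refine (q_upper h0).trans ?_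
    have h1 := (abs_RR_sub_one (w := w) (a := a) (b := b) he he4 u).trans hd
    rw [← sq_abs]
    exact pow_le_pow_left₀ (abs_nonneg _) h1 2
  have hpt0 : ∀ u, 0 ≤ RR w e a b u * Real.log (RR w e a b u) - RR w e a b u + 1 := by
    intro u
    obtain ⟨h1, h2⟩ := RR_bounds (w := w) (a := a) (b := b) he he4 u
    have h0 : 0 < RR w e a b u := by linarith
    exact (mul_nonneg (by norm_num) (sq_nonneg _)).trans (q_lower h0 h2)
  refine integral_mono (integrable_ga_mul_of_bdd hq (C := d ^ 2) fun u => ?_)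
    (integrable_ga.mul_const _) fun u => ?_
  · rw [abs_of_nonneg (hpt0 u)]
    exact hpt u
  · exact mul_le_mul_of_nonneg_left (hpt u) (ga_pos u).le

/-- In the diagonal direction the doubled frequency is not damped. -/
lemma Q_lower {w e a d : ℝ} (he : 0 < e) (he4 : e ≤ 1 / 4)
    (hd : 2 * (e * ga (w * a)) + e ^ 2 / 2 * ga (w * (a + a)) ≤ d) :
    √(2 * π) * ((1 / 6) * (e ^ 4 / 16 - d ^ 2)) ≤ Q w e a a := by
  have hRR : ∀ u, RR w e a a u - 1 = e ^ 2 / 2 * Real.cos (w * (a + a) * u) +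
      (2 * (e * ga (w * a)) * Real.cos (w * a * u) + e ^ 2 / 2 * ga (w * (a + a))) := by
    intro u
    unfold RR
    have h0 : ga (w * (a - a)) = 1 := by
      unfold ga
      rw [sub_self, mul_zero]
      norm_num
    have h1 : Real.cos (w * (a - a) * u) = 1 := by
      rw [sub_self, mul_zero, zero_mul, Real.cos_zero]
    rw [h0, h1]
    ring
  have hpt : ∀ u, (1 / 6) * ((1 / 2) * (e ^ 2 / 2 * Real.cos (w * (a + a) * u)) ^ 2 - d ^ 2) ≤
      RR w e a a u * Real.log (RR w e a a u) - RR w e a a u + 1 := by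
    intro u
    obtain ⟨h1, h2⟩ := RR_bounds (w := w) (a := a) (b := a) he he4 u
    have h0 : 0 < RR w e a a u := by linarith
    refine le_trans ?_ (q_lower h0 h2)
    rw [hRR]
    have g1 := ga_pos (w * a)
    have g2 := ga_pos (w * (a + a))
    have c1 := abs_le.1 (Real.abs_cos_le_one (w * a * u))
    have hE : |2 * (e * ga (w * a)) * Real.cos (w * a * u) + e ^ 2 / 2 * ga (w * (a + a))| ≤ d := by
      have k1 : 0 < 2 * (e * ga (w * a)) := by positivity
      have k2 : 0 < e ^ 2 / 2 * ga (w * (a + a)) := by positivity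
      rw [abs_le]
      constructor
      · nlinarith [mul_nonneg k1.le (sub_nonneg.2 c1.1)]
      · nlinarith [mul_nonneg k1.le (sub_nonneg.2 c1.2)]
    set p := e ^ 2 / 2 * Real.cos (w * (a + a) * u) with hp
    set q := 2 * (e * ga (w * a)) * Real.cos (w * a * u) + e ^ 2 / 2 * ga (w * (a + a)) with hq
    have hq2 : q ^ 2 ≤ d ^ 2 := by
      rw [← sq_abs]
      exact pow_le_pow_left₀ (abs_nonneg _) hE 2
    nlinarith [sq_nonneg (p + 2 * q)]
  have hq : Continuous (fun u => RR w e a a u * Real.log (RR w e a a u) - RR w e a a u + 1) :=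
    (((RR_cont w e a a).mul (logRR_cont a a he he4)).sub (RR_cont w e a a)).add continuous_const
  have hpt0 : ∀ u, 0 ≤ RR w e a a u * Real.log (RR w e a a u) - RR w e a a u + 1 := by
    intro u
    obtain ⟨h1, h2⟩ := RR_bounds (w := w) (a := a) (b := a) he he4 u
    have h0 : 0 < RR w e a a u := by linarith
    exact (mul_nonneg (by norm_num) (sq_nonneg _)).trans (q_lower h0 h2)
  have hpt1 : ∀ u, RR w e a a u * Real.log (RR w e a a u) - RR w e a a u + 1 ≤ 4 := by
    intro u
    obtain ⟨h1, h2⟩ := RR_bounds (w := w) (a := a) (b := a) he he4 u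
    have h0 : 0 < RR w e a a u := by linarith
    refine (q_upper h0).trans ?_
    nlinarith
  have e2 : ∀ u, ga u * ((1 / 6) * ((1 / 2) * (e ^ 2 / 2 * Real.cos (w * (a + a) * u)) ^ 2 - d ^ 2)) =
      (1 / 6) * (e ^ 4 / 16 - d ^ 2) * ga u +
      (1 / 6) * (e ^ 4 / 16) * (ga u * Real.cos ((2 * (w * (a + a))) * u + 0)) := by
    intro u
    have : (2 * (w * (a + a))) * u + 0 = 2 * (w * (a + a) * u) := by ring
    rw [this, Real.cos_two_mul]
    ring
  have i2 := (integrable_ga_cos (2 * (w * (a + a))) 0).const_mul ((1 / 6) * (e ^ 4 / 16))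
  have i1 := integrable_ga.const_mul ((1 / 6) * (e ^ 4 / 16 - d ^ 2))
  have hL : √(2 * π) * ((1 / 6) * (e ^ 4 / 16 - d ^ 2)) ≤
      ∫ u, ga u * ((1 / 6) * ((1 / 2) * (e ^ 2 / 2 * Real.cos (w * (a + a) * u)) ^ 2 - d ^ 2)) := by
    simp only [e2]
    rw [integral_add i1 i2, integral_const_mul, integral_const_mul, integral_ga, integral_ga_cos,
      Real.cos_zero]
    have h1 := sqrt2pi_pos
    have h2 : 0 ≤ (1 / 6) * (e ^ 4 / 16) * (√(2 * π) * (Real.exp (-((2 * (w * (a + a))) ^ 2) / 2) * 1)) := by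
      positivity
    linarith
  refine hL.trans ?_
  unfold Q
  refine integral_mono ?_ (integrable_ga_mul_of_bdd hq (C := 4) fun u => ?_) fun u => ?_
  · simp only [e2]
    exact i1.add i2
  · rw [abs_of_nonneg (hpt0 u)]
    exact hpt1 u
  · exact mul_le_mul_of_nonneg_left (hpt u) (ga_pos u).le

end Pool.Agent.H483R3.Ent
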