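import Mathlib
set_option autoImplicit false
open MeasureTheory Real
open scoped ENNReal

namespace Pool.Agent.H483R3.Ent

/-- The reflection of the plane swapping the first axis and the direction (a,b). -/
def refl2 (a b : ℝ) (p : ℝ × ℝ) : ℝ × ℝ := (a * p.1 + b * p.2, b * p.1 - a * p.2)

lemma refl2_refl2 {a b : ℝ} (h : a ^ 2 + b ^ 2 = 1) (p : ℝ × ℝ) : refl2 a b (refl2 a b p) = p := by
  simp only [refl2]
  ext
  · simp only
    have : a * (a * p.1 + b * p.2) + b * (b * p.1 - a * p.2) = (a ^ 2 + b ^ 2) * p.1 := by ring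
    rw [this, h, one_mul]
  · simp only
    have : b * (a * p.1 + b * p.2) - a * (b * p.1 - a * p.2) = (a ^ 2 + b ^ 2) * p.2 := by ring
    rw [this, h, one_mul]

lemma measurable_refl2 (a b : ℝ) : Measurable (refl2 a b) := by
  unfold refl2
  fun_prop

lemma measurePreserving_refl2 {a b : ℝ} (h : a ^ 2 + b ^ 2 = 1) :
    MeasurePreserving (refl2 a b) (volume : Measure (ℝ × ℝ)) volume := by
  have hu : (a + b * Complex.I : ℂ) ∈ Submonoid.unitSphere ℂ := by
    simp [Submonoid.unitSphere, Complex.norm_add_mul_I, h]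
  let u : Circle := ⟨a + b * Complex.I, hu⟩
  let T : ℂ ≃ₗᵢ[ℝ] ℂ := Complex.conjLIE.trans (rotation u)
  have hT : MeasurePreserving T volume volume := T.measurePreserving
  have h1 := Complex.volume_preserving_equiv_real_prod
  have h2 := (h1.comp hT).comp (h1.symm Complex.measurableEquivRealProd)
  refine MeasurePreserving.congr h2 (measurable_refl2 a b) (Filter.Eventually.of_forall ?_)
  intro p
  have e1 : Complex.measurableEquivRealProd.symm p = (⟨p.1, p.2⟩ : ℂ) := rfl
  have hc : ((u : Circle) : ℂ) = a + b * Complex.I := rfl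
  simp only [Function.comp_apply, e1, T, LinearIsometryEquiv.trans_apply, Complex.conjLIE_apply,
    rotation_apply, hc, Complex.measurableEquivRealProd_apply, refl2]
  ext <;> simp [Complex.mul_re, Complex.mul_im]
  ring

/-- Law of the linear combination of two independent copies. -/
lemma map_prod_withDensity {F : ℝ → ℝ≥0∞} (hF : Measurable F)
    [SFinite ((volume : Measure ℝ).withDensity F)] {a b : ℝ} (h : a ^ 2 + b ^ 2 = 1) :
    (((volume : Measure ℝ).withDensity F).prod ((volume : Measure ℝ).withDensity F)).map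
      (fun p : ℝ × ℝ => a * p.1 + b * p.2) =
    (volume : Measure ℝ).withDensity (fun u => ∫⁻ v, F (a * u + b * v) * F (b * u - a * v)) := by
  have hmeas : Measurable (fun p : ℝ × ℝ => a * p.1 + b * p.2) := by fun_prop
  rw [prod_withDensity hF hF]
  ext s hs
  rw [Measure.map_apply hmeas hs, withDensity_apply _ (hmeas hs), withDensity_apply _ hs]
  have hH : Measurable (fun z : ℝ × ℝ => F z.1 * F z.2) := by fun_prop
  rw [← lintegral_indicator (hmeas hs), ← lintegral_indicator hs]
  have hG : Measurable (fun z : ℝ × ℝ => s.indicator (fun _ => F (a * z.1 + b * z.2) * F (b * z.1 - a * z.2)) z.1) := by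
    have : (fun z : ℝ × ℝ => s.indicator (fun _ => F (a * z.1 + b * z.2) * F (b * z.1 - a * z.2)) z.1) =
        ((fun z : ℝ × ℝ => z.1) ⁻¹' s).indicator (fun z => F (a * z.1 + b * z.2) * F (b * z.1 - a * z.2)) := by
      funext z
      rfl
    rw [this]
    refine Measurable.indicator ?_ (measurable_fst hs)
    fun_prop
  have hvol : (volume : Measure ℝ).prod (volume : Measure ℝ) = (volume : Measure (ℝ × ℝ)) := rfl
  have e1 : ∀ z : ℝ × ℝ, ((fun p : ℝ × ℝ => a * p.1 + b * p.2) ⁻¹' s).indicator
      (fun z : ℝ × ℝ => F z.1 * F z.2) z =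
      (fun z : ℝ × ℝ => s.indicator (fun _ => F (a * z.1 + b * z.2) * F (b * z.1 - a * z.2)) z.1)
        (refl2 a b z) := by
    intro z
    have h2 := refl2_refl2 h z
    have h3 : a * (refl2 a b z).1 + b * (refl2 a b z).2 = z.1 := congrArg Prod.fst h2
    have h4 : b * (refl2 a b z).1 - a * (refl2 a b z).2 = z.2 := congrArg Prod.snd h2
    have h5 : (refl2 a b z).1 = a * z.1 + b * z.2 := rfl
    by_cases hz : a * z.1 + b * z.2 ∈ s
    · have hz' : (refl2 a b z).1 ∈ s := by rw [h5]; exact hz
      have hz2 : z ∈ ((fun p : ℝ × ℝ => a * p.1 + b * p.2) ⁻¹' s) := hz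
      rw [Set.indicator_of_mem hz2]
      simp only [Set.indicator_of_mem hz', h3, h4]
    · have hz' : (refl2 a b z).1 ∉ s := by rw [h5]; exact hz
      have hz2 : z ∉ ((fun p : ℝ × ℝ => a * p.1 + b * p.2) ⁻¹' s) := hz
      rw [Set.indicator_of_notMem hz2]
      simp only [Set.indicator_of_notMem hz']
  rw [hvol, lintegral_congr e1, (measurePreserving_refl2 h).lintegral_comp hG, ← hvol,
    lintegral_prod _ hG.aemeasurable]
  refine lintegral_congr fun u => ?_
  by_cases hu : u ∈ s
  · simp [Set.indicator_of_mem hu]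
  · simp [Set.indicator_of_notMem hu]

end Pool.Agent.H483R3.Ent
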