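import Pool.Agent.H483R3.Ent.Basic
import Pool.Agent.H483R3.Ent.Rot
set_option autoImplicit false
open MeasureTheory Real
open scoped ENNReal

namespace Pool.Agent.H483R3.Ent

/-- The density: standard Gaussian modulated by a small cosine. -/
noncomputable def F (w e : ℝ) (x : ℝ) : ℝ :=
  (√(2 * π) * (1 + e * ga w))⁻¹ * (ga x * (1 + e * Real.cos (w * x)))

/-- The density of the linear combination relative to the Gaussian, up to a constant. -/
noncomputable def RR (w e a b : ℝ) (u : ℝ) : ℝ :=
  1 + e * ga (w * b) * Real.cos (w * a * u) + e * ga (w * a) * Real.cos (w * b * u) +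
    e ^ 2 / 2 * (ga (w * (b - a)) * Real.cos (w * (a + b) * u) +
      ga (w * (a + b)) * Real.cos (w * (a - b) * u))

/-- The density of the linear combination. -/
noncomputable def G (w e a b : ℝ) (u : ℝ) : ℝ :=
  (√(2 * π))⁻¹ * ((1 + e * ga w) ^ 2)⁻¹ * (ga u * RR w e a b u)

lemma ga_le_one (x : ℝ) : ga x ≤ 1 := by
  unfold ga
  rw [Real.exp_le_one_iff]
  have := sq_nonneg x
  linarith

lemma ga_mul_ga {a b : ℝ} (h : a ^ 2 + b ^ 2 = 1) (u v : ℝ) :
    ga (a * u + b * v) * ga (b * u - a * v) = ga u * ga v := by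
  unfold ga
  rw [← Real.exp_add, ← Real.exp_add]
  congr 1
  have : -(a * u + b * v) ^ 2 / 2 + -(b * u - a * v) ^ 2 / 2 =
      (a ^ 2 + b ^ 2) * (-u ^ 2 / 2 + -v ^ 2 / 2) := by ring
  rw [this, h, one_mul]

lemma sqrt2pi_pos : 0 < √(2 * π) := Real.sqrt_pos.2 (by positivity)

lemma F_pos {w e : ℝ} (he : 0 < e) (he4 : e ≤ 1 / 4) (x : ℝ) : 0 < F w e x := by
  unfold F
  have h1 := ga_pos x
  have h2 := ga_pos w
  have h3 := sqrt2pi_pos
  have h4 := Real.neg_one_le_cos (w * x)
  have h5 : 0 < 1 + e * Real.cos (w * x) := by nlinarith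
  have h6 : 0 < 1 + e * ga w := by positivity
  positivity

lemma F_cont (w e : ℝ) : Continuous (F w e) := by
  unfold F
  have := ga_cont
  fun_prop

lemma integrable_F (w e : ℝ) (he : 0 < e) : Integrable (F w e) := by
  have h1 : Integrable (fun v : ℝ => ga v * (1 + e * Real.cos (w * v))) := by
    refine integrable_ga_mul_of_bdd (by fun_prop) (C := 1 + e) (fun x => ?_)
    have h1 := Real.abs_cos_le_one (w * x)
    rw [abs_le] at h1 ⊢
    constructor <;> nlinarith [h1.1, h1.2]
  exact h1.const_mul _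

lemma integral_F (w e : ℝ) (he : 0 < e) : ∫ x, F w e x = 1 := by
  unfold F
  rw [integral_const_mul]
  have e1 : ∀ x : ℝ, ga x * (1 + e * Real.cos (w * x)) =
      ga x + e * (ga x * Real.cos (w * x + 0)) := by
    intro x
    rw [add_zero]
    ring
  simp only [e1]
  rw [integral_add integrable_ga ((integrable_ga_cos w 0).const_mul e), integral_const_mul,
    integral_ga, integral_ga_cos]
  have h6 : 0 < 1 + e * ga w := by
    have := ga_pos w
    positivity
  have h3 := sqrt2pi_pos
  have : √(2 * π) + e * (√(2 * π) * (Real.exp (-(w ^ 2) / 2) * Real.cos 0)) =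
      √(2 * π) * (1 + e * ga w) := by
    rw [Real.cos_zero]
    unfold ga
    ring
  rw [this, inv_mul_cancel₀ (by positivity)]

lemma cos_prod_aux (e A B : ℝ) : (1 + e * Real.cos A) * (1 + e * Real.cos B) =
    1 + e * Real.cos A + e * Real.cos B + e ^ 2 / 2 * Real.cos (A + B) +
      e ^ 2 / 2 * Real.cos (A - B) := by
  rw [Real.cos_add, Real.cos_sub]
  ring

lemma integral_five (e b1 a1 b2 a2 b3 a3 b4 a4 : ℝ) :
    Integrable (fun v => ga v + e * (ga v * Real.cos (b1 * v + a1)) +
      e * (ga v * Real.cos (b2 * v + a2)) + e ^ 2 / 2 * (ga v * Real.cos (b3 * v + a3)) +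
      e ^ 2 / 2 * (ga v * Real.cos (b4 * v + a4))) ∧
    ∫ v, (ga v + e * (ga v * Real.cos (b1 * v + a1)) +
      e * (ga v * Real.cos (b2 * v + a2)) + e ^ 2 / 2 * (ga v * Real.cos (b3 * v + a3)) +
      e ^ 2 / 2 * (ga v * Real.cos (b4 * v + a4))) =
    √(2 * π) * (1 + e * (ga b1 * Real.cos a1) + e * (ga b2 * Real.cos a2) +
      e ^ 2 / 2 * (ga b3 * Real.cos a3) + e ^ 2 / 2 * (ga b4 * Real.cos a4)) := by
  have i1 := (integrable_ga_cos b1 a1).const_mul e
  have i2 := (integrable_ga_cos b2 a2).const_mul e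
  have i3 := (integrable_ga_cos b3 a3).const_mul (e ^ 2 / 2)
  have i4 := (integrable_ga_cos b4 a4).const_mul (e ^ 2 / 2)
  have j1 : Integrable (fun v => ga v + e * (ga v * Real.cos (b1 * v + a1))) := integrable_ga.add i1
  have j2 : Integrable (fun v => ga v + e * (ga v * Real.cos (b1 * v + a1)) +
      e * (ga v * Real.cos (b2 * v + a2))) := j1.add i2
  have j3 : Integrable (fun v => ga v + e * (ga v * Real.cos (b1 * v + a1)) +
      e * (ga v * Real.cos (b2 * v + a2)) + e ^ 2 / 2 * (ga v * Real.cos (b3 * v + a3))) := j2.add i3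
  refine ⟨j3.add i4, ?_⟩
  rw [integral_add j3 i4, integral_add j2 i3, integral_add j1 i2, integral_add integrable_ga i1,
    integral_const_mul, integral_const_mul, integral_const_mul,
    integral_const_mul, integral_ga, integral_ga_cos, integral_ga_cos, integral_ga_cos,
    integral_ga_cos]
  have hh : ∀ x : ℝ, Real.exp (-(x ^ 2) / 2) = ga x := fun x => rfl
  simp only [hh]
  ring

lemma integral_FF {w e a b : ℝ} (h : a ^ 2 + b ^ 2 = 1) (u : ℝ) :
    Integrable (fun v => F w e (a * u + b * v) * F w e (b * u - a * v)) ∧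
    ∫ v, F w e (a * u + b * v) * F w e (b * u - a * v) = G w e a b u := by
  have e1 : ∀ v, F w e (a * u + b * v) * F w e (b * u - a * v) =
      ((√(2 * π) * (1 + e * ga w)) ^ 2)⁻¹ * ga u * (ga v +
        e * (ga v * Real.cos ((w * b) * v + w * a * u)) +
        e * (ga v * Real.cos (-(w * a) * v + w * b * u)) +
        e ^ 2 / 2 * (ga v * Real.cos ((w * (b - a)) * v + w * (a + b) * u)) +
        e ^ 2 / 2 * (ga v * Real.cos ((w * (a + b)) * v + w * (a - b) * u))) := by
    intro v
    have hg := ga_mul_ga h u v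
    have hA : Real.cos (w * (a * u + b * v)) = Real.cos ((w * b) * v + w * a * u) := by
      congr 1; ring
    have hB : Real.cos (w * (b * u - a * v)) = Real.cos (-(w * a) * v + w * b * u) := by
      congr 1; ring
    have hC : Real.cos ((w * (b - a)) * v + w * (a + b) * u) =
        Real.cos (((w * b) * v + w * a * u) + (-(w * a) * v + w * b * u)) := by
      congr 1; ring
    have hD : Real.cos ((w * (a + b)) * v + w * (a - b) * u) =
        Real.cos (((w * b) * v + w * a * u) - (-(w * a) * v + w * b * u)) := by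
      congr 1; ring
    have hk := cos_prod_aux e ((w * b) * v + w * a * u) (-(w * a) * v + w * b * u)
    unfold F
    rw [hA, hB, hC, hD, ← inv_pow]
    set cA := Real.cos ((w * b) * v + w * a * u) with hcA
    set cB := Real.cos (-(w * a) * v + w * b * u) with hcB
    calc (√(2 * π) * (1 + e * ga w))⁻¹ * (ga (a * u + b * v) * (1 + e * cA)) *
          ((√(2 * π) * (1 + e * ga w))⁻¹ * (ga (b * u - a * v) * (1 + e * cB)))
        = (√(2 * π) * (1 + e * ga w))⁻¹ ^ 2 * (ga (a * u + b * v) * ga (b * u - a * v)) *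
          ((1 + e * cA) * (1 + e * cB)) := by ring
      _ = _ := by
          rw [hg, hk]
          ring
  obtain ⟨hi, hv⟩ := integral_five e (w * b) (w * a * u) (-(w * a)) (w * b * u) (w * (b - a))
    (w * (a + b) * u) (w * (a + b)) (w * (a - b) * u)
  simp only [e1]
  constructor
  · exact hi.const_mul _
  · rw [integral_const_mul, hv]
    unfold G RR
    have hneg : ga (-(w * a)) = ga (w * a) := ga_even _
    rw [hneg, mul_pow, mul_inv]
    have h3 := sqrt2pi_pos
    have h7 : (√(2 * π) ^ 2)⁻¹ * √(2 * π) = (√(2 * π))⁻¹ := by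
      field_simp
    linear_combination ((1 + e * ga w) ^ 2)⁻¹ * ga u * (1 + e * ga (w * b) * Real.cos (w * a * u) + e * ga (w * a) * Real.cos (w * b * u) +
    e ^ 2 / 2 * (ga (w * (b - a)) * Real.cos (w * (a + b) * u) +
      ga (w * (a + b)) * Real.cos (w * (a - b) * u))) * h7

lemma abs_RR_sub_one {w e a b : ℝ} (he : 0 < e) (he4 : e ≤ 1 / 4) (u : ℝ) :
    |RR w e a b u - 1| ≤ e * ga (w * b) + e * ga (w * a) +
      e ^ 2 / 2 * (ga (w * (b - a)) + ga (w * (a + b))) := by
  have h1 := ga_pos (w * b)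
  have h2 := ga_pos (w * a)
  have h3 := ga_pos (w * (b - a))
  have h4 := ga_pos (w * (a + b))
  have c1 := abs_le.1 (Real.abs_cos_le_one (w * a * u))
  have c2 := abs_le.1 (Real.abs_cos_le_one (w * b * u))
  have c3 := abs_le.1 (Real.abs_cos_le_one (w * (a + b) * u))
  have c4 := abs_le.1 (Real.abs_cos_le_one (w * (a - b) * u))
  have k1 : 0 < e * ga (w * b) := by positivity
  have k2 : 0 < e * ga (w * a) := by positivity
  have k3 : 0 < e ^ 2 / 2 * ga (w * (b - a)) := by positivity
  have k4 : 0 < e ^ 2 / 2 * ga (w * (a + b)) := by positivity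
  unfold RR
  rw [abs_le]
  constructor
  · nlinarith [mul_nonneg k1.le (sub_nonneg.2 c1.1), mul_nonneg k2.le (sub_nonneg.2 c2.1),
      mul_nonneg k3.le (sub_nonneg.2 c3.1), mul_nonneg k4.le (sub_nonneg.2 c4.1)]
  · nlinarith [mul_nonneg k1.le (sub_nonneg.2 c1.2), mul_nonneg k2.le (sub_nonneg.2 c2.2),
      mul_nonneg k3.le (sub_nonneg.2 c3.2), mul_nonneg k4.le (sub_nonneg.2 c4.2)]

lemma RR_bounds {w e a b : ℝ} (he : 0 < e) (he4 : e ≤ 1 / 4) (u : ℝ) :
    1 / 4 ≤ RR w e a b u ∧ RR w e a b u ≤ 2 := by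
  have h := abs_le.1 (abs_RR_sub_one (w := w) (a := a) (b := b) he he4 u)
  have h1 := ga_le_one (w * b)
  have h2 := ga_le_one (w * a)
  have h3 := ga_le_one (w * (b - a))
  have h4 := ga_le_one (w * (a + b))
  have k1 : e * ga (w * b) ≤ 1 / 4 := by nlinarith [ga_pos (w * b)]
  have k2 : e * ga (w * a) ≤ 1 / 4 := by nlinarith [ga_pos (w * a)]
  have k3 : e ^ 2 / 2 * (ga (w * (b - a)) + ga (w * (a + b))) ≤ 1 / 16 := by
    have : e ^ 2 ≤ 1 / 16 := by nlinarith
    have h5 := ga_pos (w * (b - a))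
    have h6 := ga_pos (w * (a + b))
    nlinarith
  constructor <;> linarith [h.1, h.2]

lemma RR_cont (w e a b : ℝ) : Continuous (RR w e a b) := by
  unfold RR
  fun_prop

lemma G_cont (w e a b : ℝ) : Continuous (G w e a b) := by
  unfold G
  have := ga_cont
  have := RR_cont w e a b
  fun_prop

lemma G_pos {w e a b : ℝ} (he : 0 < e) (he4 : e ≤ 1 / 4) (u : ℝ) : 0 < G w e a b u := by
  unfold G
  have h1 := ga_pos u
  have h2 := ga_pos w
  have h3 := sqrt2pi_pos
  have h4 := (RR_bounds (w := w) (a := a) (b := b) he he4 u).1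
  have h5 : 0 < RR w e a b u := by linarith
  positivity

lemma integrable_ga_RR {w e a b : ℝ} (he : 0 < e) (he4 : e ≤ 1 / 4) :
    Integrable (fun u => ga u * RR w e a b u) :=
  integrable_ga_mul_of_bdd (RR_cont w e a b) (C := 2) (fun u => by
    have h4 := RR_bounds (w := w) (a := a) (b := b) he he4 u
    rw [abs_le]
    constructor <;> linarith [h4.1, h4.2])

lemma integrable_G {w e a b : ℝ} (he : 0 < e) (he4 : e ≤ 1 / 4) : Integrable (G w e a b) :=
  (integrable_ga_RR he he4).const_mul _

/-- The law with density F. -/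
noncomputable def mu (w e : ℝ) : Measure ℝ := volume.withDensity (fun x => ENNReal.ofReal (F w e x))

lemma isProb_mu {w e : ℝ} (he : 0 < e) (he4 : e ≤ 1 / 4) : IsProbabilityMeasure (mu w e) := by
  constructor
  unfold mu
  rw [withDensity_apply _ MeasurableSet.univ, Measure.restrict_univ,
    ← ofReal_integral_eq_lintegral_ofReal (integrable_F w e he)
      (Filter.Eventually.of_forall fun x => (F_pos he he4 x).le), integral_F w e he,
    ENNReal.ofReal_one]

lemma law_eq {w e a b : ℝ} (he : 0 < e) (he4 : e ≤ 1 / 4) (h : a ^ 2 + b ^ 2 = 1) :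
    ((mu w e).prod (mu w e)).map (fun p : ℝ × ℝ => a * p.1 + b * p.2) =
      volume.withDensity (fun u => ENNReal.ofReal (G w e a b u)) := by
  have hF : Measurable (fun x => ENNReal.ofReal (F w e x)) :=
    (F_cont w e).measurable.ennreal_ofReal
  haveI := isProb_mu (w := w) he he4
  have hp : SFinite ((volume : Measure ℝ).withDensity (fun x => ENNReal.ofReal (F w e x))) := by
    change SFinite (mu w e)
    infer_instance
  have h0 := map_prod_withDensity hF h
  unfold mu
  rw [h0]
  congr 1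
  funext u
  obtain ⟨hi, hv⟩ := integral_FF (w := w) (e := e) h u
  rw [← hv, ofReal_integral_eq_lintegral_ofReal hi (Filter.Eventually.of_forall fun v =>
    (mul_pos (F_pos he he4 _) (F_pos he he4 _)).le)]
  refine lintegral_congr fun v => ?_
  rw [ENNReal.ofReal_mul (F_pos he he4 _).le]

end Pool.Agent.H483R3.Ent
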