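import Pool.Agent.H483R3.Ent.Dens
set_option autoImplicit false
open MeasureTheory Real
open scoped ENNReal

namespace Pool.Agent.H483R3.Ent

/-- Differential entropy of a law on the line: the integral of -g log g for g the density of the law
with respect to Lebesgue measure. -/
noncomputable def diffEnt (ν : Measure ℝ) : ℝ :=
  ∫ z, Real.negMulLog ((ν.rnDeriv volume z).toReal)

lemma rnDeriv_ae {g : ℝ → ℝ} (hg : Continuous g) (h0 : ∀ x, 0 ≤ g x) :
    (fun z => (((volume : Measure ℝ).withDensity (fun u => ENNReal.ofReal (g u))).rnDeriv volume z).toReal)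
      =ᵐ[volume] g := by
  have hm : Measurable (fun u => ENNReal.ofReal (g u)) := hg.measurable.ennreal_ofReal
  filter_upwards [Measure.rnDeriv_withDensity (volume : Measure ℝ) hm] with z hz
  rw [hz, ENNReal.toReal_ofReal (h0 z)]

lemma diffEnt_withDensity {g : ℝ → ℝ} (hg : Continuous g) (h0 : ∀ x, 0 ≤ g x) :
    diffEnt ((volume : Measure ℝ).withDensity (fun u => ENNReal.ofReal (g u))) =
      ∫ u, Real.negMulLog (g u) := by
  unfold diffEnt
  refine integral_congr_ae ?_
  filter_upwards [rnDeriv_ae hg h0] with z hz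
  exact congrArg Real.negMulLog hz

lemma integrable_sq_ga : Integrable (fun x : ℝ => x ^ 2 * ga x) := by
  have h := integrable_rpow_mul_exp_neg_mul_sq (b := 1 / 2) (by norm_num) (s := 2) (by norm_num)
  refine h.congr (Filter.Eventually.of_forall fun x => ?_)
  simp only [ga]
  rw [Real.rpow_two]
  congr 2
  ring

lemma integrable_id_ga : Integrable (fun x : ℝ => x * ga x) := by
  have h := integrable_mul_exp_neg_mul_sq (b := 1 / 2) (by norm_num)
  refine h.congr (Filter.Eventually.of_forall fun x => ?_)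
  simp only [ga]
  congr 2
  ring

lemma F_le {w e : ℝ} (he : 0 < e) (he4 : e ≤ 1 / 4) (x : ℝ) :
    F w e x ≤ (√(2 * π) * (1 + e * ga w))⁻¹ * 2 * ga x := by
  unfold F
  have h1 := ga_pos x
  have h2 := ga_pos w
  have h3 := sqrt2pi_pos
  have h4 := Real.cos_le_one (w * x)
  have h5 : 1 + e * Real.cos (w * x) ≤ 2 := by nlinarith
  have h6 : 0 < (√(2 * π) * (1 + e * ga w))⁻¹ := by positivity
  calc (√(2 * π) * (1 + e * ga w))⁻¹ * (ga x * (1 + e * Real.cos (w * x)))
      ≤ (√(2 * π) * (1 + e * ga w))⁻¹ * (ga x * 2) := by gcongr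
    _ = _ := by ring

lemma integrable_sq_F {w e : ℝ} (he : 0 < e) (he4 : e ≤ 1 / 4) :
    Integrable (fun x : ℝ => F w e x * x ^ 2) := by
  have h := integrable_sq_ga.const_mul ((√(2 * π) * (1 + e * ga w))⁻¹ * 2)
  refine h.mono' ((F_cont w e).mul (by fun_prop)).aestronglyMeasurable
    (Filter.Eventually.of_forall fun x => ?_)
  have h1 := F_le (w := w) he he4 x
  have h2 := F_pos (w := w) he he4 x
  rw [Real.norm_eq_abs, abs_of_nonneg (by positivity)]
  have := mul_le_mul_of_nonneg_right h1 (sq_nonneg x)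
  linarith

lemma integrable_id_F {w e : ℝ} (he : 0 < e) (he4 : e ≤ 1 / 4) :
    Integrable (fun x : ℝ => F w e x * x) := by
  have h := (integrable_id_ga.const_mul ((√(2 * π) * (1 + e * ga w))⁻¹ * 2)).norm
  refine h.mono' ((F_cont w e).mul (by fun_prop)).aestronglyMeasurable
    (Filter.Eventually.of_forall fun x => ?_)
  have h1 := F_le (w := w) he he4 x
  have h2 := F_pos (w := w) he he4 x
  have h3 := ga_pos x
  have h4 := ga_pos w
  have h5 := sqrt2pi_pos
  have h6 : 0 < (√(2 * π) * (1 + e * ga w))⁻¹ * 2 := by positivity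
  rw [Real.norm_eq_abs, Real.norm_eq_abs, abs_mul, abs_mul _ (x * ga x), abs_mul x, abs_of_pos h2,
    abs_of_pos h3, abs_of_pos h6]
  have := mul_le_mul_of_nonneg_right h1 (abs_nonneg x)
  linarith

lemma F_even {w e : ℝ} (x : ℝ) : F w e (-x) = F w e x := by
  unfold F
  rw [ga_even, mul_neg, Real.cos_neg]

lemma integral_id_F {w e : ℝ} : ∫ x, F w e x * x = 0 := by
  have h := integral_neg_eq_self (fun x => F w e x * x) (volume : Measure ℝ)
  simp only [F_even, mul_neg] at h
  rw [integral_neg] at h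
  linarith

lemma integrable_mu_iff {w e : ℝ} (he : 0 < e) (he4 : e ≤ 1 / 4) (g : ℝ → ℝ) :
    Integrable g (mu w e) ↔ Integrable (fun x => F w e x * g x) := by
  have hF : Measurable (fun x => ENNReal.ofReal (F w e x)) :=
    (F_cont w e).measurable.ennreal_ofReal
  unfold mu
  rw [integrable_withDensity_iff_integrable_smul' hF
    (Filter.Eventually.of_forall fun x => ENNReal.ofReal_lt_top)]
  have : ∀ x, (ENNReal.ofReal (F w e x)).toReal • g x = F w e x * g x := by
    intro x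
    rw [ENNReal.toReal_ofReal (F_pos he he4 x).le, smul_eq_mul]
  simp only [this]

lemma integral_mu {w e : ℝ} (he : 0 < e) (he4 : e ≤ 1 / 4) (g : ℝ → ℝ) :
    ∫ x, g x ∂(mu w e) = ∫ x, F w e x * g x := by
  have hF : Measurable (fun x => ENNReal.ofReal (F w e x)) :=
    (F_cont w e).measurable.ennreal_ofReal
  unfold mu
  rw [integral_withDensity_eq_integral_toReal_smul hF
    (Filter.Eventually.of_forall fun x => ENNReal.ofReal_lt_top)]
  refine integral_congr_ae (Filter.Eventually.of_forall fun x => ?_)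
  simp only [smul_eq_mul]
  rw [ENNReal.toReal_ofReal (F_pos he he4 x).le]

/-- The second moment does not depend on the direction. -/
lemma second_moment {w e a b : ℝ} (he : 0 < e) (he4 : e ≤ 1 / 4) (h : a ^ 2 + b ^ 2 = 1) :
    ∫ u, G w e a b u * u ^ 2 = ∫ x, F w e x * x ^ 2 := by
  have := isProb_mu (w := w) he he4
  have hlaw := law_eq (w := w) he he4 h
  have hG : Measurable (fun u => ENNReal.ofReal (G w e a b u)) :=
    (G_cont w e a b).measurable.ennreal_ofReal
  have e1 : ∫ u, G w e a b u * u ^ 2 =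
      ∫ u, u ^ 2 ∂(((volume : Measure ℝ).withDensity (fun u => ENNReal.ofReal (G w e a b u)))) := by
    rw [integral_withDensity_eq_integral_toReal_smul hG
      (Filter.Eventually.of_forall fun x => ENNReal.ofReal_lt_top)]
    refine integral_congr_ae (Filter.Eventually.of_forall fun x => ?_)
    simp only [smul_eq_mul]
    rw [ENNReal.toReal_ofReal (G_pos he he4 x).le]
  have i2 : Integrable (fun x : ℝ => x ^ 2) (mu w e) := (integrable_mu_iff he he4 _).2 (integrable_sq_F he he4)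
  have i1 : Integrable (fun x : ℝ => x) (mu w e) := (integrable_mu_iff he he4 _).2 (integrable_id_F he he4)
  have z1 : ∫ x, x ∂(mu w e) = 0 := by
    rw [integral_mu he he4, integral_id_F]
  have z2 : ∫ x, x ^ 2 ∂(mu w e) = ∫ x, F w e x * x ^ 2 := integral_mu he he4 _
  rw [e1, ← hlaw, integral_map (by fun_prop) (by fun_prop), ← z2]
  have k1 : Integrable (fun z : ℝ × ℝ => z.1 ^ 2 * (1 : ℝ)) ((mu w e).prod (mu w e)) :=
    i2.mul_prod (integrable_const (1 : ℝ))
  have k2 : Integrable (fun z : ℝ × ℝ => (1 : ℝ) * z.2 ^ 2) ((mu w e).prod (mu w e)) :=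
    (integrable_const (1 : ℝ)).mul_prod i2
  have k3 : Integrable (fun z : ℝ × ℝ => z.1 * z.2) ((mu w e).prod (mu w e)) := i1.mul_prod i1
  have v1 : ∫ z : ℝ × ℝ, z.1 ^ 2 * (1 : ℝ) ∂((mu w e).prod (mu w e)) =
      ∫ x, x ^ 2 ∂(mu w e) := by
    have := integral_prod_mul (μ := mu w e) (ν := mu w e) (fun x : ℝ => x ^ 2) (fun _ : ℝ => (1 : ℝ))
    rw [this]
    simp
  have v2 : ∫ z : ℝ × ℝ, (1 : ℝ) * z.2 ^ 2 ∂((mu w e).prod (mu w e)) =
      ∫ x, x ^ 2 ∂(mu w e) := by
    have := integral_prod_mul (μ := mu w e) (ν := mu w e) (fun _ : ℝ => (1 : ℝ)) (fun x : ℝ => x ^ 2)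
    rw [this]
    simp
  have v3 : ∫ z : ℝ × ℝ, z.1 * z.2 ∂((mu w e).prod (mu w e)) = 0 := by
    have := integral_prod_mul (μ := mu w e) (ν := mu w e) (fun x : ℝ => x) (fun x : ℝ => x)
    rw [this, z1, zero_mul]
  have e2 : ∀ z : ℝ × ℝ, (a * z.1 + b * z.2) ^ 2 = a ^ 2 * (z.1 ^ 2 * (1 : ℝ)) +
      b ^ 2 * ((1 : ℝ) * z.2 ^ 2) + 2 * a * b * (z.1 * z.2) := by
    intro z
    ring
  simp only [e2]
  have m12 : Integrable (fun z : ℝ × ℝ => a ^ 2 * (z.1 ^ 2 * (1 : ℝ)) + b ^ 2 * ((1 : ℝ) * z.2 ^ 2))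
      ((mu w e).prod (mu w e)) := (k1.const_mul (a ^ 2)).add (k2.const_mul (b ^ 2))
  have w1 : ∫ z : ℝ × ℝ, a ^ 2 * (z.1 ^ 2 * (1 : ℝ)) ∂((mu w e).prod (mu w e)) =
      a ^ 2 * ∫ x, x ^ 2 ∂(mu w e) := by rw [integral_const_mul, v1]
  have w2 : ∫ z : ℝ × ℝ, b ^ 2 * ((1 : ℝ) * z.2 ^ 2) ∂((mu w e).prod (mu w e)) =
      b ^ 2 * ∫ x, x ^ 2 ∂(mu w e) := by rw [integral_const_mul, v2]
  have w3 : ∫ z : ℝ × ℝ, 2 * a * b * (z.1 * z.2) ∂((mu w e).prod (mu w e)) = 0 := by
    rw [integral_const_mul, v3, mul_zero]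
  rw [integral_add m12 (k3.const_mul _), integral_add (k1.const_mul (a ^ 2)) (k2.const_mul (b ^ 2)),
      w1, w2, w3]
  linear_combination (∫ x, x ^ 2 ∂(mu w e)) * h

lemma integral_G {w e a b : ℝ} (he : 0 < e) (he4 : e ≤ 1 / 4) (h : a ^ 2 + b ^ 2 = 1) :
    ∫ u, G w e a b u = 1 := by
  have := isProb_mu (w := w) he he4
  have hlaw := law_eq (w := w) he he4 h
  have hm : Measurable (fun p : ℝ × ℝ => a * p.1 + b * p.2) := by fun_prop
  have h1 : ((volume : Measure ℝ).withDensity (fun u => ENNReal.ofReal (G w e a b u))) Set.univ = 1 := by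
    rw [← hlaw, Measure.map_apply hm MeasurableSet.univ, Set.preimage_univ, measure_univ]
  rw [withDensity_apply _ MeasurableSet.univ, Measure.restrict_univ,
    ← ofReal_integral_eq_lintegral_ofReal (integrable_G he he4)
      (Filter.Eventually.of_forall fun x => (G_pos he he4 x).le)] at h1
  have h2 := congrArg ENNReal.toReal h1
  rw [ENNReal.toReal_ofReal (integral_nonneg fun x => (G_pos he he4 x).le)] at h2
  simpa using h2

/-- The relative-entropy functional. -/
noncomputable def Q (w e a b : ℝ) : ℝ :=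
  ∫ u, ga u * (RR w e a b u * Real.log (RR w e a b u) - RR w e a b u + 1)

lemma logRR_cont {w e : ℝ} (a b : ℝ) (he : 0 < e) (he4 : e ≤ 1 / 4) :
    Continuous (fun u => Real.log (RR w e a b u)) := by
  refine Continuous.log (RR_cont w e a b) fun u => ?_
  have := (RR_bounds (w := w) (a := a) (b := b) he he4 u).1
  linarith

lemma abs_logRR {w e : ℝ} (a b : ℝ) (he : 0 < e) (he4 : e ≤ 1 / 4) (u : ℝ) :
    |Real.log (RR w e a b u)| ≤ 3 := by
  obtain ⟨h1, h2⟩ := RR_bounds (w := w) (a := a) (b := b) he he4 u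
  have h0 : 0 < RR w e a b u := by linarith
  rw [abs_le]
  constructor
  · have h3 := Real.one_sub_inv_le_log_of_pos h0
    have h4 : (RR w e a b u)⁻¹ ≤ 4 := by
      rw [inv_le_comm₀ h0 (by norm_num)]
      linarith
    linarith
  · have h3 := Real.log_le_sub_one_of_pos h0
    linarith

lemma integrable_ga_RlogR {w e : ℝ} (a b : ℝ) (he : 0 < e) (he4 : e ≤ 1 / 4) :
    Integrable (fun u => ga u * (RR w e a b u * Real.log (RR w e a b u))) :=
  integrable_ga_mul_of_bdd ((RR_cont w e a b).mul (logRR_cont a b he he4)) (C := 6) (fun u => by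
    have h4 := RR_bounds (w := w) (a := a) (b := b) he he4 u
    have h5 := abs_logRR (w := w) a b he he4 u
    have h6 : |RR w e a b u| ≤ 2 := by
      rw [abs_le]
      constructor <;> linarith [h4.1, h4.2]
    rw [abs_mul]
    nlinarith [abs_nonneg (RR w e a b u), abs_nonneg (Real.log (RR w e a b u))])

lemma integrable_sq_G {w e a b : ℝ} (he : 0 < e) (he4 : e ≤ 1 / 4) :
    Integrable (fun u => G w e a b u * u ^ 2) := by
  have h := integrable_sq_ga.const_mul ((√(2 * π))⁻¹ * ((1 + e * ga w) ^ 2)⁻¹ * 2)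
  refine h.mono' ((G_cont w e a b).mul (by fun_prop)).aestronglyMeasurable
    (Filter.Eventually.of_forall fun x => ?_)
  have h2 := G_pos (w := w) (a := a) (b := b) he he4 x
  have h3 := (RR_bounds (w := w) (a := a) (b := b) he he4 x).2
  have h4 := ga_pos x
  have h5 := sqrt2pi_pos
  have h6 := ga_pos w
  have h7 : 0 < (√(2 * π))⁻¹ * ((1 + e * ga w) ^ 2)⁻¹ := by positivity
  rw [Real.norm_eq_abs, abs_of_nonneg (by positivity)]
  unfold G
  calc (√(2 * π))⁻¹ * ((1 + e * ga w) ^ 2)⁻¹ * (ga x * RR w e a b x) * x ^ 2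
      ≤ (√(2 * π))⁻¹ * ((1 + e * ga w) ^ 2)⁻¹ * (ga x * 2) * x ^ 2 := by gcongr
    _ = _ := by ring

/-- Entropy of the linear combination. -/
lemma negMulLog_G {w e a b : ℝ} (he : 0 < e) (he4 : e ≤ 1 / 4) (u : ℝ) :
    Real.negMulLog (G w e a b u) =
      (-Real.log ((√(2 * π))⁻¹ * ((1 + e * ga w) ^ 2)⁻¹)) * G w e a b u +
      (1 / 2) * (G w e a b u * u ^ 2) -
      (√(2 * π))⁻¹ * ((1 + e * ga w) ^ 2)⁻¹ * (ga u * (RR w e a b u * Real.log (RR w e a b u))) := by
  have h3 := (RR_bounds (w := w) (a := a) (b := b) he he4 u).1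
  have h4 := ga_pos u
  have h5 := sqrt2pi_pos
  have h6 := ga_pos w
  have h7 : 0 < (√(2 * π))⁻¹ * ((1 + e * ga w) ^ 2)⁻¹ := by positivity
  have h8 : 0 < RR w e a b u := by linarith
  have hlog : Real.log (G w e a b u) = Real.log ((√(2 * π))⁻¹ * ((1 + e * ga w) ^ 2)⁻¹) +
      (-(u ^ 2) / 2 + Real.log (RR w e a b u)) := by
    unfold G
    rw [Real.log_mul h7.ne' (by positivity), Real.log_mul h4.ne' h8.ne']
    unfold ga
    rw [Real.log_exp]
  rw [Real.negMulLog, hlog]
  unfold G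
  ring

lemma entropy_G {w e a b : ℝ} (he : 0 < e) (he4 : e ≤ 1 / 4) (h : a ^ 2 + b ^ 2 = 1) :
    Integrable (fun u => Real.negMulLog (G w e a b u)) ∧
    ∫ u, Real.negMulLog (G w e a b u) =
      (-Real.log ((√(2 * π))⁻¹ * ((1 + e * ga w) ^ 2)⁻¹)) +
      (1 / 2) * (∫ x, F w e x * x ^ 2) - 1 +
      (√(2 * π))⁻¹ * ((1 + e * ga w) ^ 2)⁻¹ * √(2 * π) -
      (√(2 * π))⁻¹ * ((1 + e * ga w) ^ 2)⁻¹ * Q w e a b := by
  have i1 : Integrable (fun u => (-Real.log ((√(2 * π))⁻¹ * ((1 + e * ga w) ^ 2)⁻¹)) * G w e a b u) :=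
    (integrable_G he he4).const_mul _
  have i2 : Integrable (fun u => (1 / 2) * (G w e a b u * u ^ 2)) :=
    (integrable_sq_G he he4).const_mul _
  have i3 : Integrable (fun u => (√(2 * π))⁻¹ * ((1 + e * ga w) ^ 2)⁻¹ *
      (ga u * (RR w e a b u * Real.log (RR w e a b u)))) := (integrable_ga_RlogR a b he he4).const_mul _
  have i12 : Integrable (fun u => (-Real.log ((√(2 * π))⁻¹ * ((1 + e * ga w) ^ 2)⁻¹)) * G w e a b u +
      (1 / 2) * (G w e a b u * u ^ 2)) := i1.add i2
  simp only [negMulLog_G he he4]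
  refine ⟨i12.sub i3, ?_⟩
  rw [integral_sub i12 i3, integral_add i1 i2, integral_const_mul, integral_const_mul,
    integral_const_mul, integral_G he he4 h, second_moment he he4 h]
  have hQ : Q w e a b = (∫ u, ga u * (RR w e a b u * Real.log (RR w e a b u))) -
      (∫ u, ga u * RR w e a b u) + √(2 * π) := by
    have e1 : ∀ u, ga u * (RR w e a b u * Real.log (RR w e a b u) - RR w e a b u + 1) =
        ga u * (RR w e a b u * Real.log (RR w e a b u)) - ga u * RR w e a b u + ga u := by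
      intro u; ring
    unfold Q
    simp only [e1]
    have j1 : Integrable (fun u => ga u * (RR w e a b u * Real.log (RR w e a b u)) -
        ga u * RR w e a b u) := (integrable_ga_RlogR a b he he4).sub (integrable_ga_RR he he4)
    rw [integral_add j1 integrable_ga, integral_sub (integrable_ga_RlogR a b he he4)
      (integrable_ga_RR he he4), integral_ga]
  have hG1 : (√(2 * π))⁻¹ * ((1 + e * ga w) ^ 2)⁻¹ * (∫ u, ga u * RR w e a b u) = 1 := by
    have := integral_G (w := w) he he4 h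
    unfold G at this
    rwa [integral_const_mul] at this
  rw [hQ]
  linear_combination (-1) * hG1

end Pool.Agent.H483R3.Ent
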