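import Pool.Agent.H483R3.Ent.Comp
set_option autoImplicit false
open MeasureTheory Real
open scoped ENNReal

namespace Pool.Agent.H483R3.Ent

lemma F_smooth (w e : ℝ) : ContDiff ℝ ⊤ (F w e) := by
  unfold F ga
  fun_prop

lemma one_add_cos_pos {w e : ℝ} (he : 0 < e) (he4 : e ≤ 1 / 4) (x : ℝ) :
    3 / 4 ≤ 1 + e * Real.cos (w * x) ∧ 1 + e * Real.cos (w * x) ≤ 5 / 4 := by
  have h := abs_le.1 (Real.abs_cos_le_one (w * x))
  constructor
  · nlinarith [h.1]
  · nlinarith [h.2]

lemma log_F {w e : ℝ} (he : 0 < e) (he4 : e ≤ 1 / 4) (x : ℝ) :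
    Real.log (F w e x) = Real.log ((√(2 * π) * (1 + e * ga w))⁻¹) + (-(x ^ 2) / 2 +
      Real.log (1 + e * Real.cos (w * x))) := by
  unfold F
  have h1 := ga_pos x
  have h2 := ga_pos w
  have h3 := sqrt2pi_pos
  have h4 := (one_add_cos_pos (w := w) he he4 x).1
  have h5 : 0 < (√(2 * π) * (1 + e * ga w))⁻¹ := by positivity
  have h6 : 0 < 1 + e * Real.cos (w * x) := by linarith
  rw [Real.log_mul h5.ne' (by positivity), Real.log_mul h1.ne' h6.ne']
  congr 2
  unfold ga
  rw [Real.log_exp]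

lemma hasDerivAt_log_F {w e : ℝ} (he : 0 < e) (he4 : e ≤ 1 / 4) (x : ℝ) :
    HasDerivAt (fun x => Real.log (F w e x))
      (-x - e * w * Real.sin (w * x) / (1 + e * Real.cos (w * x))) x := by
  have h4 := (one_add_cos_pos (w := w) he he4 x).1
  have hfun : (fun x => Real.log (F w e x)) = fun x => Real.log ((√(2 * π) * (1 + e * ga w))⁻¹) +
      (-(x ^ 2) / 2 + Real.log (1 + e * Real.cos (w * x))) := by
    funext x
    exact log_F he he4 x
  rw [hfun]
  have h1 : HasDerivAt (fun x : ℝ => w * x) w x := by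
    simpa using (hasDerivAt_id x).const_mul w
  have h2 : HasDerivAt (fun x : ℝ => 1 + e * Real.cos (w * x)) (e * (-Real.sin (w * x) * w)) x :=
    ((h1.cos).const_mul e).const_add 1
  have h3 := h2.log (by linarith)
  have h5 : HasDerivAt (fun x : ℝ => -(x ^ 2) / 2) (-x) x := by
    have := ((hasDerivAt_pow 2 x).neg).div_const 2
    refine this.congr_deriv ?_
    norm_num
    ring
  refine ((h5.add h3).const_add _).congr_deriv ?_
  ring

lemma hasDerivAt_deriv_log_F {w e : ℝ} (he : 0 < e) (he4 : e ≤ 1 / 4) (x : ℝ) :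
    HasDerivAt (fun x => -x - e * w * Real.sin (w * x) / (1 + e * Real.cos (w * x)))
      (-1 - e * w ^ 2 * (Real.cos (w * x) + e) / (1 + e * Real.cos (w * x)) ^ 2) x := by
  have h4 := (one_add_cos_pos (w := w) he he4 x).1
  have h1 : HasDerivAt (fun x : ℝ => w * x) w x := by
    simpa using (hasDerivAt_id x).const_mul w
  have h2 : HasDerivAt (fun x : ℝ => 1 + e * Real.cos (w * x)) (e * (-Real.sin (w * x) * w)) x :=
    ((h1.cos).const_mul e).const_add 1
  have h3 : HasDerivAt (fun x : ℝ => e * w * Real.sin (w * x)) (e * w * (Real.cos (w * x) * w)) x :=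
    (h1.sin).const_mul (e * w)
  have hne : 1 + e * Real.cos (w * x) ≠ 0 := by linarith
  have h5 := h3.div h2 hne
  refine ((hasDerivAt_id x).neg.sub h5).congr_deriv ?_
  have hsc := Real.sin_sq_add_cos_sq (w * x)
  field_simp
  linear_combination (-1) * e ^ 2 * w ^ 2 * hsc

lemma deriv_log_F {w e : ℝ} (he : 0 < e) (he4 : e ≤ 1 / 4) :
    deriv (fun x => Real.log (F w e x)) =
      fun x => -x - e * w * Real.sin (w * x) / (1 + e * Real.cos (w * x)) :=
  funext fun x => (hasDerivAt_log_F he he4 x).deriv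

lemma deriv2_log_F {w e : ℝ} (he : 0 < e) (he4 : e ≤ 1 / 4) :
    deriv (deriv (fun x => Real.log (F w e x))) =
      fun x => -1 - e * w ^ 2 * (Real.cos (w * x) + e) / (1 + e * Real.cos (w * x)) ^ 2 := by
  rw [deriv_log_F he he4]
  exact funext fun x => (hasDerivAt_deriv_log_F he he4 x).deriv

lemma deriv2_log_F_bound {w e t : ℝ} (he : 0 < e) (he4 : e ≤ 1 / 4) (ht : e * w ^ 2 ≤ t / 4) (x : ℝ) :
    |deriv (deriv (fun x => Real.log (F w e x))) x + 1| ≤ t := by
  rw [deriv2_log_F he he4]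
  obtain ⟨h4, -⟩ := one_add_cos_pos (w := w) he he4 x
  have h := abs_le.1 (Real.abs_cos_le_one (w * x))
  have hw : 0 ≤ e * w ^ 2 := by positivity
  have h5 : 0 < (1 + e * Real.cos (w * x)) ^ 2 := by positivity
  have h6 : 9 / 16 ≤ (1 + e * Real.cos (w * x)) ^ 2 := by nlinarith
  have e1 : -1 - e * w ^ 2 * (Real.cos (w * x) + e) / (1 + e * Real.cos (w * x)) ^ 2 + 1 =
      -(e * w ^ 2 * (Real.cos (w * x) + e) / (1 + e * Real.cos (w * x)) ^ 2) := by ring
  simp only [e1, abs_neg, abs_div, abs_mul]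
  rw [abs_of_pos h5, div_le_iff₀ h5]
  have h7 : |Real.cos (w * x) + e| ≤ 5 / 4 := by
    rw [abs_le]
    constructor <;> linarith [h.1, h.2]
  have h8 : |e| * |w ^ 2| = e * w ^ 2 := by rw [← abs_mul, abs_of_nonneg hw]
  rw [h8]
  have ht0 : 0 ≤ t := by linarith
  calc e * w ^ 2 * |Real.cos (w * x) + e| ≤ t / 4 * (5 / 4) := by
        apply mul_le_mul ht h7 (abs_nonneg _) (by linarith)
    _ ≤ t * (9 / 16) := by linarith
    _ ≤ t * (1 + e * Real.cos (w * x)) ^ 2 := mul_le_mul_of_nonneg_left h6 ht0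

lemma logconcave_F {w e : ℝ} (he : 0 < e) (he4 : e ≤ 1 / 4) (ht : e * w ^ 2 ≤ 1 / 4) :
    ConcaveOn ℝ Set.univ (fun x => Real.log (F w e x)) := by
  refine concaveOn_univ_of_deriv2_nonpos (fun x => (hasDerivAt_log_F he he4 x).differentiableAt)
    ?_ fun x => ?_
  · rw [deriv_log_F he he4]
    exact fun x => (hasDerivAt_deriv_log_F he he4 x).differentiableAt
  · have h := (abs_le.1 (deriv2_log_F_bound he he4 (t := 1) ht x)).2
    simp only [Function.iterate_succ, Function.iterate_zero, Function.comp_apply, id]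
    linarith

lemma F_close {w e : ℝ} (he : 0 < e) (he4 : e ≤ 1 / 4) (x : ℝ) :
    |F w e x / ((√(2 * π))⁻¹ * Real.exp (-(x ^ 2) / 2)) - 1| ≤ 2 * e := by
  have h1 := ga_pos x
  have h2 := ga_pos w
  have h2' := ga_le_one w
  have h3 := sqrt2pi_pos
  have h := abs_le.1 (Real.abs_cos_le_one (w * x))
  have h6 : 0 < 1 + e * ga w := by positivity
  have e1 : F w e x / ((√(2 * π))⁻¹ * Real.exp (-(x ^ 2) / 2)) - 1 =
      (e * Real.cos (w * x) - e * ga w) / (1 + e * ga w) := by
    unfold F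
    change (√(2 * π) * (1 + e * ga w))⁻¹ * (ga x * (1 + e * Real.cos (w * x))) / ((√(2 * π))⁻¹ * ga x) - 1 = _
    field_simp
    ring
  rw [e1, abs_div, abs_of_pos h6, div_le_iff₀ h6, abs_le]
  have k1 : 0 < e * ga w := by positivity
  have k2 : e * ga w ≤ e := by nlinarith
  constructor <;> nlinarith [h.1, h.2, mul_pos he k1]

end Pool.Agent.H483R3.Ent
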